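import Pool.Agent.Helper96.GD.Lattice

/-!
# Avoiding countably many upper cones
-/

open Filter

namespace Pool.Agent.Helper96.GD

open Pool.Agent.Helper92.Gen

/-- A filter which is generic for a sequence of sets. -/
theorem exists_filter_seq (D : ℕ → Set ℕ) (B : Set ℕ) : ∃ st : ℕ → Cond B,
    (∀ n m, n ≤ m → Ext (st n) (st m)) ∧
      ∀ i e, ∃ n, D0 e (st n) ∧ D1 (D i) e (st n) := by
  choose f hf using fun (i e : ℕ) (c : Cond B) => step (D i) e c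
  let st : ℕ → Cond B := fun n => Nat.rec ⟨∅, 0, by simp, by simp⟩
    (fun e c => f e.unpair.1 e.unpair.2 c) n
  have hst : ∀ e, st (e + 1) = f e.unpair.1 e.unpair.2 (st e) := fun e => rfl
  refine ⟨st, ?_, ?_⟩
  · intro n m h
    induction m, h using Nat.le_induction with
    | base => exact Ext.refl _
    | succ m _ ih => exact ih.trans (hst m ▸ (hf _ _ (st m)).1)
  · intro i e
    refine ⟨Nat.pair i e + 1, ?_⟩
    rw [hst]
    simp only [Nat.unpair_pair]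
    exact ⟨(hf _ _ _).2.1, (hf _ _ _).2.2⟩

theorem exists_superset_seq {D : ℕ → Set ℕ} {B : Set ℕ} (hD : ∀ i, ¬ GC (D i)) (hB : ¬ GC B)
    (hd : Sm Bᶜ) : ∃ C : Set ℕ, B ⊆ C ∧ ¬ Red C ∅ ∧ ∀ i, ¬ Red (D i) C := by
  obtain ⟨st, hst, hF⟩ := exists_filter_seq D B
  set C : Set ℕ := {x | ∀ n, x ∉ (st n).S} with hC
  have hBC : B ⊆ C := fun x hx n hn => (st n).out x hn hx
  have hCn : ∀ n x, x < (st n).n → x ∉ (st n).S → x ∈ C := by
    intro n x h1 h2 m hm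
    rcases le_total n m with h | h
    · exact h2 ((hst n m h).res x hm h1)
    · exact h2 ((hst m n h).sub x hm)
  refine ⟨C, hBC, ?_, ?_⟩
  · rintro ⟨W, hW, hW'⟩
    have h0 : GDs ∅ {p : ℕ × ℕ | p.2 = 0} := by
      rw [gds_iff]
      refine ⟨fun x y h => Or.inr ⟨by simp, h⟩, sm_empty.mono 0 fun x _ hx => ?_⟩
      exact hx ⟨0, rfl⟩
    obtain ⟨h1, h2⟩ := gds_iff.1 (hW' _ h0)
    have hQ : PrimrecPred fun q : ℕ × ℕ => q.2 = 0 := p_eq (p_snd p_id) (p_const 0)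
    have hV := re_section hW hQ
    have hV1 : REPred fun x : ℕ => ∃ l : List (ℕ × ℕ), (∀ q ∈ l, q.2 = 0) ∧ W (l, (x, 1)) :=
      re_comp hV (Computable.pair Computable.id (Computable.const 1))
    obtain ⟨e, he⟩ := exists_En hV1
    obtain ⟨n, hn, _⟩ := hF 0 e
    rcases hn with ⟨x, hx, hx'⟩ | ⟨m, hm⟩
    · rw [← he] at hx'
      rcases h1 x 1 hx' with ⟨h3, _⟩ | ⟨_, h3⟩
      · exact h3 _ hx
      · exact absurd h3 (by norm_num)
    · have hU : REPred fun p : ℕ × ℕ => (p.2 = 1 ∧ m ≤ p.1) ∧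
          ∃ l : List (ℕ × ℕ), (∀ q ∈ l, q.2 = 0) ∧ W (l, (p.1, 1)) :=
        re_and (re_comp hV1 Computable.fst)
          (p_and (p_eq (p_snd p_id) (p_const 1)) (p_le (p_const m) (p_fst p_id)))
      obtain ⟨φ, hφ1, hφ2, hφ3⟩ := exists_partrec (A := B) hU (by
        rintro x y ⟨⟨h3, h4⟩, h5⟩
        exact Or.inl ⟨hm x h4 ((he x).1 h5), h3⟩)
      apply hB
      refine ⟨φ, hφ1, hφ2, ?_⟩
      rw [dens_iff_sm]
      refine (h2.union hd).mono m fun x hx hx' => ?_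
      by_contra hcon
      simp only [Set.mem_union, Set.mem_ofPred_eq, Set.mem_compl_iff, not_or, not_not] at hcon
      obtain ⟨⟨y, hy⟩, hxB⟩ := hcon
      apply hx'
      refine hφ3 x ⟨1, ⟨rfl, hx⟩, ?_⟩
      rcases h1 x y hy with ⟨_, rfl⟩ | ⟨h3, _⟩
      · exact hy
      · exact absurd (hBC hxB) h3
  · rintro i ⟨W, hW, hW'⟩
    have h0 : GDs C {p : ℕ × ℕ | p.1 ∈ C ∧ p.2 = 1} := by
      rw [gds_iff]
      refine ⟨fun x y h => Or.inl h, hd.mono 0 fun x _ hx => ?_⟩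
      intro hxB
      exact hx ⟨1, hBC hxB, rfl⟩
    obtain ⟨h1, h2⟩ := gds_iff.1 (hW' _ h0)
    obtain ⟨e, he⟩ := exists_index hW
    obtain ⟨n, _, hn⟩ := hF i e
    rcases hn with ⟨l, hl, x, y, h3, h4⟩ | h3
    · rw [← index_encode he] at h3
      exact h4 (h1 x y ⟨l, fun q hq => ⟨hCn _ _ (hl q hq).2.1 (hl q hq).2.2, (hl q hq).1⟩, h3⟩)
    · obtain ⟨φ, hφ1, hφ2, hφ3⟩ := exists_partrec (A := D i)
        (re_section hW (p_fin (st n).S)) (by
        rintro x y ⟨l, hl, hxy⟩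
        exact h3 l hl x y ((index_encode he _).1 hxy))
      apply hD i
      refine ⟨φ, hφ1, hφ2, ?_⟩
      rw [dens_iff_sm]
      refine h2.mono 0 fun x _ hx hx' => ?_
      obtain ⟨y, l, hl, hxy⟩ := hx'
      exact hx (hφ3 x ⟨y, l, fun q hq => ⟨(hl q hq).2, (hl q hq).1 _⟩, hxy⟩)

/-- Reducibility to the empty set is generic computability. -/
theorem gc_of_red {A : Set ℕ} (h : Red A ∅) : GC A := by
  obtain ⟨W, hW, hW'⟩ := h
  have h0 : GDs ∅ {p : ℕ × ℕ | p.2 = 0} := by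
    rw [gds_iff]
    refine ⟨fun x y h => Or.inr ⟨by simp, h⟩, sm_empty.mono 0 fun x _ hx => ?_⟩
    exact hx ⟨0, rfl⟩
  obtain ⟨h1, h2⟩ := gds_iff.1 (hW' _ h0)
  have hQ : PrimrecPred fun q : ℕ × ℕ => q.2 = 0 := p_eq (p_snd p_id) (p_const 0)
  obtain ⟨φ, hφ1, hφ2, hφ3⟩ := exists_partrec (A := A) (re_section hW hQ) h1
  refine ⟨φ, hφ1, hφ2, ?_⟩
  rw [dens_iff_sm]
  exact h2.mono 0 fun x _ hx hx' => hx (hφ3 x hx')

/-- Every set which is not generically computable bounds a set of density one which is not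
generically computable and avoids the upper cones of countably many given sets. -/
theorem avoid {A : Set ℕ} (hA : ¬ GC A) {D : ℕ → Set ℕ} (hD : ∀ i, ¬ GC (D i)) :
    ∃ B : Set ℕ, Sm Bᶜ ∧ ¬ GC B ∧ Red B A ∧ ∀ i, ¬ Red (D i) B := by
  obtain ⟨_, B, hB, hd, hBA⟩ := exists_below (fun h => hA (gc_of_red h))
  obtain ⟨C, hBC, h1, h2⟩ := exists_superset_seq hD hB hd
  exact ⟨C, hd.mono 0 fun x _ hx hx' => hx (hBC hx'), fun h => h1 (red_of_gc h),
    red_post hBA hd hBC, h2⟩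

end Pool.Agent.Helper96.GD
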