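import Pool.Agent.Helper92.Gen.Third

/-!
# Closure lemmas for recursively enumerable predicates
-/

open Filter

namespace Pool.Agent.Helper96.GD

open Nat.Partrec (Code)
open Pool.Agent.Helper92.Gen

section

variable {α β : Type*} [Primcodable α] [Primcodable β]

/-- Every recursively enumerable predicate has an index. -/
theorem exists_index {P : α → Prop} (h : REPred P) :
    ∃ e, ∀ n, (∃ a, (Encodable.decode n : Option α) = some a ∧ P a) ↔ ∃ t, En e t n := by
  refine exists_En ?_
  unfold REPred at h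
  have h1 : Partrec fun n : ℕ => ((Encodable.decode n : Option α) : Part α).bind
      fun a => Part.assert (P a) fun _ => Part.some () :=
    (Computable.ofOption Computable.decode).bind (h.comp Computable.snd).to₂
  refine h1.dom_re.of_eq fun n => ?_
  cases hd : (Encodable.decode n : Option α) with
  | none => simp
  | some a => simp [Part.assert]

theorem index_encode {P : α → Prop} {e : ℕ}
    (h : ∀ n, (∃ a, (Encodable.decode n : Option α) = some a ∧ P a) ↔ ∃ t, En e t n) (a : α) :
    P a ↔ ∃ t, En e t (Encodable.encode a) := by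
  rw [← h]
  simp

theorem re_and {P Q : α → Prop} (hP : REPred P) (hQ : PrimrecPred Q) :
    REPred fun a => Q a ∧ P a := by
  obtain ⟨e, he⟩ := exists_index hP
  refine re_of_primrec (R := fun a t => Q a ∧ En e t (Encodable.encode a)) ?_ ?_
  · exact p_and (hQ.comp Primrec.fst) (p_En (p_const e) Primrec.snd
      (Primrec.encode.comp Primrec.fst))
  · intro a
    rw [index_encode he]
    tauto

theorem re_exists {P : β × α → Prop} (hP : REPred P) : REPred fun a => ∃ b, P (b, a) := by
  obtain ⟨e, he⟩ := exists_index hP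
  refine re_of_primrec (R := fun a m => En e m.unpair.2
    (Nat.pair m.unpair.1 (Encodable.encode a))) ?_ ?_
  · exact p_En (p_const e) (p_snd (p_unpair Primrec.snd)) (p_pair (p_fst (p_unpair Primrec.snd))
      (Primrec.encode.comp Primrec.fst))
  · intro a
    constructor
    · rintro ⟨b, hb⟩
      rw [index_encode he] at hb
      obtain ⟨t, ht⟩ := hb
      refine ⟨Nat.pair (Encodable.encode b) t, ?_⟩
      simp only [Nat.unpair_pair]
      exact ht
    · rintro ⟨m, hm⟩
      obtain ⟨x, hx1, hx2⟩ := (he _).2 ⟨_, hm⟩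
      rw [Encodable.decode_prod_val] at hx1
      simp only [Nat.unpair_pair, Encodable.encodek, Option.map_some] at hx1
      cases hb : (Encodable.decode m.unpair.1 : Option β) with
      | none => rw [hb] at hx1; simp at hx1
      | some b =>
        rw [hb] at hx1
        simp only [Option.bind_some, Option.some.injEq] at hx1
        exact ⟨b, hx1 ▸ hx2⟩

theorem re_comp {P : β → Prop} (hP : REPred P) {f : α → β} (hf : Computable f) :
    REPred fun a => P (f a) := by
  unfold REPred at *
  exact hP.comp hf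

end

/-- A recursively enumerable set of correct answers gives a partial computable function. -/
theorem exists_partrec {A : Set ℕ} {U : ℕ × ℕ → Prop} (hU : REPred U)
    (hc : ∀ x y, U (x, y) → ((x ∈ A ∧ y = 1) ∨ (x ∉ A ∧ y = 0))) :
    ∃ φ : ℕ →. Bool, Partrec φ ∧ (∀ n : ℕ, ∀ b ∈ φ n, (b = true ↔ n ∈ A)) ∧
      ∀ n, (∃ y, U (n, y)) → (φ n).Dom := by
  have h1 : REPred fun x : ℕ => U (x, 1) := re_comp hU (Computable.pair Computable.id
    (Computable.const 1))
  have h0 : REPred fun x : ℕ => U (x, 0) := re_comp hU (Computable.pair Computable.id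
    (Computable.const 0))
  unfold REPred at h1 h0
  have g1 : Partrec fun x : ℕ => (Part.assert (U (x, 1)) fun _ => Part.some ()).map
    fun _ => true := h1.map (Computable.const true).to₂
  have g0 : Partrec fun x : ℕ => (Part.assert (U (x, 0)) fun _ => Part.some ()).map
    fun _ => false := h0.map (Computable.const false).to₂
  have k1 : ∀ (x : ℕ) (b : Bool), (b ∈ (Part.assert (U (x, 1)) fun _ => Part.some ()).map
    fun _ => true) ↔ (U (x, 1) ∧ b = true) := by
    intro x b
    simp only [Part.mem_map_iff, Part.mem_assert_iff, Part.mem_some_iff]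
    constructor
    · rintro ⟨_, ⟨h, _⟩, rfl⟩
      exact ⟨h, rfl⟩
    · rintro ⟨h, rfl⟩
      exact ⟨(), ⟨h, trivial⟩, rfl⟩
  have k0 : ∀ (x : ℕ) (b : Bool), (b ∈ (Part.assert (U (x, 0)) fun _ => Part.some ()).map
    fun _ => false) ↔ (U (x, 0) ∧ b = false) := by
    intro x b
    simp only [Part.mem_map_iff, Part.mem_assert_iff, Part.mem_some_iff]
    constructor
    · rintro ⟨_, ⟨h, _⟩, rfl⟩
      exact ⟨h, rfl⟩
    · rintro ⟨h, rfl⟩
      exact ⟨(), ⟨h, trivial⟩, rfl⟩
  obtain ⟨φ, hφ, hφ'⟩ := Partrec.merge g1 g0 (by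
    intro x b hb b' hb'
    rw [k1] at hb
    rw [k0] at hb'
    have := hc _ _ hb.1
    have := hc _ _ hb'.1
    simp at *
    tauto)
  refine ⟨φ, hφ, ?_, ?_⟩
  · intro n b hb
    rw [hφ', k1, k0] at hb
    rcases hb with ⟨h, rfl⟩ | ⟨h, rfl⟩
    · have := hc _ _ h
      simp at this
      simp [this]
    · have := hc _ _ h
      simp at this
      simp [this]
  · rintro n ⟨y, hy⟩
    have h := hc _ _ hy
    rw [Part.dom_iff_mem]
    rcases h with ⟨_, rfl⟩ | ⟨_, rfl⟩
    · exact ⟨true, by rw [hφ', k1]; exact Or.inl ⟨hy, rfl⟩⟩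
    · exact ⟨false, by rw [hφ', k0]; exact Or.inr ⟨hy, rfl⟩⟩

/-- The graph of a partial computable function is recursively enumerable. -/
theorem re_graph {φ : ℕ →. Bool} (hφ : Partrec φ) :
    REPred fun p : ℕ × ℕ => (true ∈ φ p.1 ∧ p.2 = 1) ∨ (false ∈ φ p.1 ∧ p.2 = 0) := by
  have h1 : Partrec fun a => (φ a).map fun b => (Encodable.encode b : ℕ) :=
    hφ.map (Computable.encode.comp Computable.snd).to₂
  obtain ⟨c, hc⟩ := Code.exists_code.1 (Partrec.nat_iff.1 h1)
  refine re_of_primrec (R := fun p t => Code.evaln t c p.1 = some p.2) ?_ ?_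
  · exact Primrec.eq.comp (Code.primrec_evaln.comp ((Primrec.snd.pair (Primrec.const c)).pair
      (Primrec.fst.comp Primrec.fst))) (Primrec.option_some.comp (Primrec.snd.comp Primrec.fst))
  · rintro ⟨x, y⟩
    have h3 : (∃ t, Code.evaln t c x = some y) ↔ y ∈ Code.eval c x := by
      rw [Code.evaln_complete]
      rfl
    show _ ↔ ∃ t, Code.evaln t c x = some y
    rw [h3, hc]
    simp only [Part.mem_map_iff]
    constructor
    · rintro (⟨h, rfl⟩ | ⟨h, rfl⟩)
      · exact ⟨true, h, rfl⟩
      · exact ⟨false, h, rfl⟩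
    · rintro ⟨b, hb, rfl⟩
      cases b
      · exact Or.inr ⟨hb, rfl⟩
      · exact Or.inl ⟨hb, rfl⟩

/-- The condition that all queries in a list have a given primitive recursive property. -/
theorem p_all {Q : ℕ × ℕ → Prop} (hQ : PrimrecPred Q) :
    PrimrecPred fun l : List (ℕ × ℕ) => ∀ q ∈ l, Q q := by
  have h1 : PrimrecRel fun (q : ℕ × ℕ) (_ : Unit) => Q q := hQ.comp Primrec.fst
  exact h1.forall_mem_list.comp Primrec.id (Primrec.const ())

/-- The section of an enumeration operator. -/
theorem re_section {W : List (ℕ × ℕ) × (ℕ × ℕ) → Prop} (hW : REPred W) {Q : ℕ × ℕ → Prop}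
    (hQ : PrimrecPred Q) : REPred fun p : ℕ × ℕ => ∃ l, (∀ q ∈ l, Q q) ∧ W (l, p) :=
  re_exists (P := fun x : List (ℕ × ℕ) × (ℕ × ℕ) => (∀ q ∈ x.1, Q q) ∧ W x)
    (re_and hW ((p_all hQ).comp Primrec.fst))

end Pool.Agent.Helper96.GD
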