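import Pool.Agent.Helper96.GD.Main

/-!
# The power set of the natural numbers below every nonzero generic degree
-/

open Filter

namespace Pool.Agent.Helper96.GD

open Pool.Agent.Helper92.Gen

section

variable {α : Type*} [Primcodable α]

theorem re_and₂ {P Q : α → Prop} (hP : REPred P) (hQ : REPred Q) :
    REPred fun a => P a ∧ Q a := by
  obtain ⟨e, he⟩ := exists_index hP
  obtain ⟨e', he'⟩ := exists_index hQ
  refine re_of_primrec (R := fun a t => En e t.unpair.1 (Encodable.encode a) ∧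
    En e' t.unpair.2 (Encodable.encode a)) ?_ ?_
  · exact p_and (p_En (p_const e) (p_fst (p_unpair Primrec.snd))
      (Primrec.encode.comp Primrec.fst)) (p_En (p_const e') (p_snd (p_unpair Primrec.snd))
      (Primrec.encode.comp Primrec.fst))
  · intro a
    rw [index_encode he, index_encode he']
    constructor
    · rintro ⟨⟨t, ht⟩, t', ht'⟩
      exact ⟨Nat.pair t t', by simpa using ⟨ht, ht'⟩⟩
    · rintro ⟨t, h1, h2⟩
      exact ⟨⟨_, h1⟩, _, h2⟩

end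

theorem p_mem_list : PrimrecPred fun x : List (ℕ × ℕ) × (ℕ × ℕ) => x.2 ∈ x.1 := by
  have h1 : PrimrecRel fun (x : ℕ × ℕ) (y : ℕ × ℕ) => x = y := Primrec.eq
  refine (h1.exists_mem_list.comp Primrec.fst Primrec.snd).of_eq fun a => ?_
  simp

theorem p_sub_list : PrimrecPred fun x : List (ℕ × ℕ) × List (ℕ × ℕ) => ∀ q ∈ x.1, q ∈ x.2 := by
  have h1 : PrimrecRel fun (q : ℕ × ℕ) (l : List (ℕ × ℕ)) => q ∈ l :=
    p_mem_list.comp (Primrec.snd.pair Primrec.fst)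
  exact h1.forall_mem_list.comp Primrec.fst Primrec.snd

theorem red_refl (A : Set ℕ) : Red A A := by
  refine ⟨fun x => x.2 ∈ x.1, ?_, fun G hG => ?_⟩
  · exact re_of_primrec (R := fun x _ => x.2 ∈ x.1) (p_mem_list.comp Primrec.fst)
      fun x => by simp
  · convert hG using 1
    ext p
    constructor
    · rintro ⟨l, hl, h⟩
      exact hl p h
    · intro h
      exact ⟨[p], by simpa using h, by simp⟩

theorem red_univ (A : Set ℕ) : Red Set.univ A := by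
  refine ⟨fun x => x.2.2 = 1, ?_, fun G _ => ?_⟩
  · exact re_of_primrec (R := fun x _ => x.2.2 = 1)
      (p_eq (p_snd (p_snd (p_fst p_id))) (p_const 1)) fun x => by simp
  · rw [gds_iff]
    refine ⟨?_, sm_empty.mono 0 fun x _ hx => hx ⟨1, [], by simp, rfl⟩⟩
    rintro x y ⟨_, _, h⟩
    exact Or.inl ⟨trivial, h⟩

/-- Restricting the answers to the value one. -/
theorem red_post {A C C' : Set ℕ} (h : Red C A) (hd : Sm Cᶜ) (hC : C ⊆ C') : Red C' A := by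
  obtain ⟨W, hW, hW'⟩ := h
  refine ⟨fun x => x.2.2 = 1 ∧ W x, re_and hW (p_eq (p_snd (p_snd p_id)) (p_const 1)),
    fun G hG => ?_⟩
  obtain ⟨h1, h2⟩ := gds_iff.1 (hW' G hG)
  rw [gds_iff]
  constructor
  · rintro x y ⟨l, hl, h3, h4⟩
    simp only at h3
    subst h3
    rcases h1 x 1 ⟨l, hl, h4⟩ with ⟨h5, _⟩ | ⟨_, h5⟩
    · exact Or.inl ⟨hC h5, rfl⟩
    · exact absurd h5 (by norm_num)
  · refine (Sm.union h2 hd).mono 0 fun x _ hx => ?_
    by_contra hcon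
    simp only [Set.mem_union, Set.mem_ofPred_eq, Set.mem_compl_iff, not_or, not_not] at hcon
    obtain ⟨⟨y, l, hl, hy⟩, hxB⟩ := hcon
    apply hx
    rcases h1 x y ⟨l, hl, hy⟩ with ⟨_, rfl⟩ | ⟨h5, _⟩
    · exact ⟨1, l, hl, rfl, hy⟩
    · exact absurd hxB h5

/-- Restricting the questions to the value one. -/
theorem red_pre {A C C' : Set ℕ} (h : Red A C') (hd : Sm Cᶜ) (hC : C ⊆ C') : Red A C := by
  obtain ⟨W, hW, hW'⟩ := h
  have hQ : PrimrecPred fun q : ℕ × ℕ => q.2 = 1 := p_eq (p_snd p_id) (p_const 1)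
  refine ⟨fun x => (∀ q ∈ x.1, q.2 = 1) ∧ W x, re_and hW ((p_all hQ).comp Primrec.fst),
    fun G hG => ?_⟩
  obtain ⟨hG1, hG2⟩ := gds_iff.1 hG
  have h0 : GDs C' {p : ℕ × ℕ | p ∈ G ∧ p.2 = 1} := by
    rw [gds_iff]
    constructor
    · rintro x y ⟨h1, h2⟩
      simp only at h2
      subst h2
      rcases hG1 x 1 h1 with ⟨h3, _⟩ | ⟨_, h3⟩
      · exact Or.inl ⟨hC h3, rfl⟩
      · exact absurd h3 (by norm_num)
    · refine (Sm.union hG2 hd).mono 0 fun x _ hx => ?_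
      by_contra hcon
      simp only [Set.mem_union, Set.mem_ofPred_eq, Set.mem_compl_iff, not_or, not_not] at hcon
      obtain ⟨⟨y, hy⟩, hxC⟩ := hcon
      apply hx
      rcases hG1 x y hy with ⟨_, rfl⟩ | ⟨h5, _⟩
      · exact ⟨1, hy, rfl⟩
      · exact absurd hxC h5
  have h1 := hW' _ h0
  convert h1 using 1
  ext p
  constructor
  · rintro ⟨l, hl, h2, h3⟩
    exact ⟨l, fun q hq => ⟨hl q hq, h2 q hq⟩, h3⟩
  · rintro ⟨l, hl, h3⟩
    exact ⟨l, fun q hq => (hl q hq).1, fun q hq => (hl q hq).2, h3⟩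

/-- Intersections of sets of density one are joins. -/
theorem red_inter {A C C' : Set ℕ} (h : Red C A) (h' : Red C' A) (hd : Sm Cᶜ) (hd' : Sm C'ᶜ) :
    Red (C ∩ C') A := by
  obtain ⟨W, hW, hW1⟩ := h
  obtain ⟨W', hW', hW2⟩ := h'
  let β := List (ℕ × ℕ) × List (ℕ × ℕ)
  have hre : REPred fun x : List (ℕ × ℕ) × (ℕ × ℕ) => ∃ m : β,
      (((∀ q ∈ m.1, q ∈ x.1) ∧ (∀ q ∈ m.2, q ∈ x.1)) ∧ x.2.2 = 1) ∧
        (W (m.1, x.2) ∧ W' (m.2, x.2)) := by
    refine re_exists (P := fun z : β × (List (ℕ × ℕ) × (ℕ × ℕ)) =>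
      (((∀ q ∈ z.1.1, q ∈ z.2.1) ∧ (∀ q ∈ z.1.2, q ∈ z.2.1)) ∧ z.2.2.2 = 1) ∧
        (W (z.1.1, z.2.2) ∧ W' (z.1.2, z.2.2))) ?_
    refine re_and (re_and₂ (re_comp hW ?_) (re_comp hW' ?_)) ?_
    · exact ((Primrec.fst.comp Primrec.fst).pair (Primrec.snd.comp Primrec.snd)).to_comp
    · exact ((Primrec.snd.comp Primrec.fst).pair (Primrec.snd.comp Primrec.snd)).to_comp
    · exact p_and (p_and
        (p_sub_list.comp ((Primrec.fst.comp Primrec.fst).pair (Primrec.fst.comp Primrec.snd)))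
        (p_sub_list.comp ((Primrec.snd.comp Primrec.fst).pair (Primrec.fst.comp Primrec.snd))))
        (p_eq (p_snd (p_snd Primrec.snd)) (p_const 1))
  refine ⟨_, hre, fun G hG => ?_⟩
  obtain ⟨h1, h2⟩ := gds_iff.1 (hW1 G hG)
  obtain ⟨h3, h4⟩ := gds_iff.1 (hW2 G hG)
  rw [gds_iff]
  constructor
  · rintro x y ⟨l, hl, m, ⟨⟨k1, k2⟩, k3⟩, k4, k5⟩
    simp only at k3
    subst k3
    rcases h1 x 1 ⟨m.1, fun q hq => hl q (k1 q hq), k4⟩ with ⟨h5, _⟩ | ⟨_, h5⟩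
    · rcases h3 x 1 ⟨m.2, fun q hq => hl q (k2 q hq), k5⟩ with ⟨h6, _⟩ | ⟨_, h6⟩
      · exact Or.inl ⟨⟨h5, h6⟩, rfl⟩
      · exact absurd h6 (by norm_num)
    · exact absurd h5 (by norm_num)
  · refine (Sm.union (Sm.union h2 h4) (Sm.union hd hd')).mono 0 fun x _ hx => ?_
    by_contra hcon
    simp only [Set.mem_union, Set.mem_ofPred_eq, Set.mem_compl_iff, not_or, not_not] at hcon
    obtain ⟨⟨⟨y, l, hl, hy⟩, ⟨y', l', hl', hy'⟩⟩, hxC, hxC'⟩ := hcon
    apply hx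
    have e1 : y = 1 := by
      rcases h1 x y ⟨l, hl, hy⟩ with ⟨_, h5⟩ | ⟨h5, _⟩
      · exact h5
      · exact absurd hxC h5
    have e2 : y' = 1 := by
      rcases h3 x y' ⟨l', hl', hy'⟩ with ⟨_, h5⟩ | ⟨h5, _⟩
      · exact h5
      · exact absurd hxC' h5
    subst e1 e2
    refine ⟨1, l ++ l', ?_, (l, l'), ⟨⟨?_, ?_⟩, rfl⟩, hy, hy'⟩
    · intro q hq
      rcases List.mem_append.1 hq with hq | hq
      · exact hl q hq
      · exact hl' q hq
    · exact fun q hq => List.mem_append.2 (Or.inl hq)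
    · exact fun q hq => List.mem_append.2 (Or.inr hq)

/-- Reducibility of the set provided by the main theorem on density-one sets. -/
theorem exists_below {A : Set ℕ} (hA : ¬ Red A ∅) :
    ¬ GC A ∧ ∃ B : Set ℕ, ¬ GC B ∧ Sm Bᶜ ∧ Red B A := by
  have hA' : ¬ GC A := fun h => hA (red_of_gc h)
  refine ⟨hA', ?_⟩
  obtain ⟨B, ⟨W, hW, hW'⟩, hB, hd⟩ := main A hA'
  rw [dens_iff_sm] at hd
  refine ⟨B, hB, hd, ?_⟩
  have hf : Primrec fun x : List (ℕ × ℕ) × (ℕ × ℕ) =>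
      (Nat.pair x.2.1 x.2.2, x.1.map fun q => Nat.pair q.1 q.2) :=
    (p_pair (p_fst (p_snd p_id)) (p_snd (p_snd p_id))).pair
      (Primrec.list_map Primrec.fst (p_pair (p_fst Primrec.snd) (p_snd Primrec.snd)).to₂)
  refine ⟨fun x => W (Nat.pair x.2.1 x.2.2, x.1.map fun q => Nat.pair q.1 q.2),
    re_comp hW hf.to_comp, fun G hG => ?_⟩
  obtain ⟨hG1, hG2⟩ := gds_iff.1 hG
  obtain ⟨k1, k2⟩ := hW' {z | ∃ x y, z = Nat.pair x y ∧ (x, y) ∈ G} (by
    refine ⟨?_, ?_⟩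
    · rintro z ⟨x, y, rfl, hxy⟩
      exact ⟨x, y, rfl, (hG1 x y hxy).imp And.symm And.symm⟩
    · rw [dens_iff_sm]
      refine hG2.mono 0 fun x _ hx hx' => hx ?_
      obtain ⟨y, hy⟩ := hx'
      exact ⟨y, x, y, rfl, hy⟩)
  rw [dens_iff_sm] at k2
  rw [gds_iff]
  constructor
  · rintro x y ⟨l, hl, h2⟩
    obtain ⟨n, j, h3, h4⟩ := k1 (Nat.pair x y) ⟨_, by
      intro z hz
      obtain ⟨q, hq, rfl⟩ := List.mem_map.1 hz
      exact ⟨q.1, q.2, rfl, hl q hq⟩, h2⟩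
    rw [Nat.pair_eq_pair] at h3
    obtain ⟨rfl, rfl⟩ := h3
    exact h4.imp And.symm And.symm
  · refine k2.mono 0 fun x _ hx hx' => hx ?_
    obtain ⟨j, l, hl, hj⟩ := hx'
    refine ⟨j, l.map Nat.unpair, ?_, ?_⟩
    · intro q hq
      obtain ⟨z, hz, rfl⟩ := List.mem_map.1 hq
      obtain ⟨a, b, h5, h6⟩ := hl z hz
      rw [h5, Nat.unpair_pair]
      exact h6
    · have : (l.map Nat.unpair).map (fun q => Nat.pair q.1 q.2) = l := by
        rw [List.map_map]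
        conv_rhs => rw [← List.map_id l]
        refine List.map_congr_left fun z _ => ?_
        simp
      show W (Nat.pair x j, (l.map Nat.unpair).map fun q => Nat.pair q.1 q.2)
      rw [this]
      exact hj

/-! ### families of mutually generic sets -/

/-- Finite conditions for a sequence of subsets of the complement of `B`. -/
structure CondI (B : Set ℕ) where
  S : Finset (ℕ × ℕ)
  n : ℕ
  out : ∀ p ∈ S, p.2 ∉ B
  bd : ∀ p ∈ S, p.2 < n

/-- Extension of conditions. -/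
structure ExtI {B : Set ℕ} (c c' : CondI B) : Prop where
  le : c.n ≤ c'.n
  sub : ∀ x ∈ c.S, x ∈ c'.S
  res : ∀ x ∈ c'.S, x.2 < c.n → x ∈ c.S

theorem ExtI.refl {B : Set ℕ} (c : CondI B) : ExtI c c := ⟨le_rfl, fun _ h => h, fun _ h _ => h⟩

theorem ExtI.trans {B : Set ℕ} {c c' c'' : CondI B} (h : ExtI c c') (h' : ExtI c' c'') :
    ExtI c c'' :=
  ⟨h.le.trans h'.le, fun x hx => h'.sub x (h.sub x hx),
    fun x hx hn => h.res x (h'.res x hx (hn.trans_le h.le)) hn⟩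

/-- The points put into one of the sets with index in `I`. -/
def Tf (S : Finset (ℕ × ℕ)) (I : Set ℕ) : Set ℕ := {x | ∃ j ∈ I, (j, x) ∈ S}

theorem p_Tf (S : Finset (ℕ × ℕ)) (I : Set ℕ) :
    PrimrecPred fun q : ℕ × ℕ => q.2 = 1 ∧ q.1 ∉ Tf S I := by
  classical
  refine (p_fin ((S.filter fun p => p.1 ∈ I).image Prod.snd)).of_eq fun q => ?_
  have : q.1 ∈ (S.filter fun p => p.1 ∈ I).image Prod.snd ↔ q.1 ∈ Tf S I := by
    simp only [Finset.mem_image, Finset.mem_filter]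
    constructor
    · rintro ⟨p, ⟨h1, h2⟩, h3⟩
      exact ⟨p.1, h2, by rw [← h3]; exact h1⟩
    · rintro ⟨j, h1, h2⟩
      exact ⟨(j, q.1), ⟨h2, h1⟩, rfl⟩
  rw [this]

/-- The requirement that `A` is not reducible to the smallest set. -/
def D2 (A : Set ℕ) {B : Set ℕ} (e : ℕ) (c : CondI B) : Prop :=
  (∃ l : List (ℕ × ℕ), (∀ q ∈ l, q.2 = 1 ∧ q.1 < c.n ∧ q.1 ∉ Tf c.S Set.univ) ∧
    ∃ x y, (∃ t, En e t (Encodable.encode (l, (x, y)))) ∧ ¬ Cor A x y) ∨
  ∀ l : List (ℕ × ℕ), (∀ q ∈ l, q.2 = 1 ∧ q.1 ∉ Tf c.S Set.univ) →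
    ∀ x y, (∃ t, En e t (Encodable.encode (l, (x, y)))) → Cor A x y

/-- The requirement that the `i`-th set is not reducible to the intersection of the others. -/
def D3 {B : Set ℕ} (i e : ℕ) (c : CondI B) : Prop :=
  (∃ l : List (ℕ × ℕ), (∀ q ∈ l, q.2 = 1 ∧ q.1 < c.n ∧ q.1 ∉ Tf c.S {i}ᶜ) ∧
    ∃ x y, (∃ t, En e t (Encodable.encode (l, (x, y)))) ∧ x < c.n ∧
      ¬ (((i, x) ∉ c.S ∧ y = 1) ∨ ((i, x) ∈ c.S ∧ y = 0))) ∨
  ∀ l : List (ℕ × ℕ), (∀ q ∈ l, q.2 = 1 ∧ q.1 ∉ Tf c.S {i}ᶜ) →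
    ∀ x y, (∃ t, En e t (Encodable.encode (l, (x, y)))) → c.n ≤ x → x ∈ B ∧ y = 1

theorem step2 (A : Set ℕ) {B : Set ℕ} (e : ℕ) (c : CondI B) : ∃ c', ExtI c c' ∧ D2 A e c' := by
  by_cases h : ∀ l : List (ℕ × ℕ), (∀ q ∈ l, q.2 = 1 ∧ q.1 ∉ Tf c.S Set.univ) →
      ∀ x y, (∃ t, En e t (Encodable.encode (l, (x, y)))) → Cor A x y
  · exact ⟨c, ExtI.refl c, Or.inr h⟩
  · push Not at h
    obtain ⟨l, hl, x, y, h1, h2⟩ := h
    refine ⟨⟨c.S, c.n + (l.map fun q => q.1).sum + 1, c.out, ?_⟩, ⟨?_, ?_, ?_⟩,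
      Or.inl ⟨l, ?_, x, y, h1, h2⟩⟩
    · intro z hz
      have := c.bd z hz
      omega
    · show c.n ≤ c.n + (l.map fun q => q.1).sum + 1
      omega
    · exact fun z hz => hz
    · exact fun z hz _ => hz
    · intro q hq
      refine ⟨(hl q hq).1, ?_, (hl q hq).2⟩
      have h3 : q.1 ≤ (l.map fun q => q.1).sum :=
        List.le_sum_of_mem (List.mem_map.2 ⟨q, hq, rfl⟩)
      show q.1 < c.n + (l.map fun q => q.1).sum + 1
      omega

theorem step3 {B : Set ℕ} (i e : ℕ) (c : CondI B) : ∃ c', ExtI c c' ∧ D3 i e c' := by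
  classical
  by_cases h : ∀ l : List (ℕ × ℕ), (∀ q ∈ l, q.2 = 1 ∧ q.1 ∉ Tf c.S {i}ᶜ) →
      ∀ x y, (∃ t, En e t (Encodable.encode (l, (x, y)))) → c.n ≤ x → x ∈ B ∧ y = 1
  · exact ⟨c, ExtI.refl c, Or.inr h⟩
  · push Not at h
    obtain ⟨l, hl, x, y, h1, h2, h3⟩ := h
    have h4 : ∀ q ∈ l, q.1 ≤ (l.map fun q => q.1).sum := fun q hq =>
      List.le_sum_of_mem (List.mem_map.2 ⟨q, hq, rfl⟩)
    have h5 : (i, x) ∉ c.S := fun h => by
      have := c.bd _ h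
      simp only at this
      omega
    by_cases hy : y = 1
    · have hx : x ∉ B := fun hx => h3 hx hy
      refine ⟨⟨insert (i, x) c.S, c.n + (l.map fun q => q.1).sum + x + 1, ?_, ?_⟩,
        ⟨?_, ?_, ?_⟩, Or.inl ⟨l, ?_, x, y, h1, ?_, ?_⟩⟩
      · intro z hz
        rcases Finset.mem_insert.1 hz with rfl | hz
        · exact hx
        · exact c.out z hz
      · intro z hz
        rcases Finset.mem_insert.1 hz with rfl | hz
        · show x < _
          omega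
        · have := c.bd z hz
          omega
      · show c.n ≤ c.n + (l.map fun q => q.1).sum + x + 1
        omega
      · exact fun z hz => Finset.mem_insert_of_mem hz
      · intro z hz hzn
        rcases Finset.mem_insert.1 hz with rfl | hz
        · simp only at hzn
          omega
        · exact hz
      · intro q hq
        refine ⟨(hl q hq).1, ?_, ?_⟩
        · have := h4 q hq
          show q.1 < c.n + (l.map fun q => q.1).sum + x + 1
          omega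
        · rintro ⟨j, hj1, hj2⟩
          rcases Finset.mem_insert.1 hj2 with h6 | h6
          · exact hj1 (Prod.mk.inj h6).1
          · exact (hl q hq).2 ⟨j, hj1, h6⟩
      · show x < c.n + (l.map fun q => q.1).sum + x + 1
        omega
      · rintro (⟨h6, _⟩ | ⟨_, h6⟩)
        · exact h6 (Finset.mem_insert_self _ _)
        · omega
    · refine ⟨⟨c.S, c.n + (l.map fun q => q.1).sum + x + 1, c.out, ?_⟩, ⟨?_, ?_, ?_⟩,
        Or.inl ⟨l, ?_, x, y, h1, ?_, ?_⟩⟩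
      · intro z hz
        have := c.bd z hz
        omega
      · show c.n ≤ c.n + (l.map fun q => q.1).sum + x + 1
        omega
      · exact fun z hz => hz
      · exact fun z hz _ => hz
      · intro q hq
        refine ⟨(hl q hq).1, ?_, (hl q hq).2⟩
        have := h4 q hq
        show q.1 < c.n + (l.map fun q => q.1).sum + x + 1
        omega
      · show x < c.n + (l.map fun q => q.1).sum + x + 1
        omega
      · rintro (⟨_, h6⟩ | ⟨h6, _⟩)
        · exact hy h6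
        · exact h5 h6

/-- A generic filter. -/
theorem exists_filterI (A B : Set ℕ) : ∃ st : ℕ → CondI B,
    (∀ n m, n ≤ m → ExtI (st n) (st m)) ∧
      ∀ i e, (∃ n, D2 A e (st n)) ∧ ∃ n, D3 i e (st n) := by
  choose f hf using fun (e : ℕ) (c : CondI B) => step2 A e c
  choose g hg using fun (i e : ℕ) (c : CondI B) => step3 i e c
  let st : ℕ → CondI B := fun n => Nat.rec ⟨∅, 0, by simp, by simp⟩
    (fun e c => if e.unpair.2 = 0 then f e.unpair.1 c else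
      g (e.unpair.2 - 1) e.unpair.1 c) n
  have hst : ∀ e, st (e + 1) = if e.unpair.2 = 0 then f e.unpair.1 (st e) else
      g (e.unpair.2 - 1) e.unpair.1 (st e) := fun e => rfl
  refine ⟨st, ?_, ?_⟩
  · intro n m h
    induction m, h using Nat.le_induction with
    | base => exact ExtI.refl _
    | succ m _ ih =>
      refine ih.trans ?_
      rw [hst]
      split
      · exact (hf _ _).1
      · exact (hg _ _ _).1
  · intro i e
    refine ⟨⟨Nat.pair e 0 + 1, ?_⟩, ⟨Nat.pair e (i + 1) + 1, ?_⟩⟩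
    · rw [hst]
      simp only [Nat.unpair_pair]
      exact (hf _ _).2
    · rw [hst]
      simp only [Nat.unpair_pair]
      exact (hg _ _ _).2

/-- The power set embedding. -/
theorem power_set {A : Set ℕ} (hA : ¬ Red A ∅) :
    ∃ C : Set ℕ → Set ℕ, (∀ I, Sm (C I)ᶜ) ∧ (∀ I, Red (C I) A ∧ ¬ Red A (C I)) ∧
      (∀ I J, Red (C I) (C J) ↔ I ⊆ J) ∧
      (∀ I J X, Red (C I) X → Red (C J) X → Red (C (I ∪ J)) X) ∧ Red (C ∅) ∅ := by
  obtain ⟨hA', B, hB, hd, hBA⟩ := exists_below hA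
  obtain ⟨st, hst, hD⟩ := exists_filterI A B
  let C : Set ℕ → Set ℕ := fun I => {x | ∀ n, x ∉ Tf (st n).S I}
  have hBC : ∀ I, B ⊆ C I := fun I x hx n ⟨j, _, hn⟩ => (st n).out _ hn hx
  have hdC : ∀ I, Sm (C I)ᶜ := fun I => hd.mono 0 fun x _ hx hx' => hx (hBC I hx')
  have hmono : ∀ I J, I ⊆ J → C J ⊆ C I := fun I J h x hx n ⟨j, hj, hn⟩ => hx n ⟨j, h hj, hn⟩
  have hCn : ∀ I n x, x < (st n).n → x ∉ Tf (st n).S I → x ∈ C I := by
    intro I n x h1 h2 m hm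
    apply h2
    obtain ⟨j, hj, hm⟩ := hm
    refine ⟨j, hj, ?_⟩
    rcases le_total n m with h | h
    · exact (hst n m h).res _ hm h1
    · exact (hst m n h).sub _ hm
  have hG : ∀ I, GDs (C I) {p : ℕ × ℕ | p.1 ∈ C I ∧ p.2 = 1} := by
    intro I
    rw [gds_iff]
    refine ⟨fun x y h => Or.inl h, (hdC I).mono 0 fun x _ hx => ?_⟩
    intro hxB
    exact hx ⟨1, hxB, rfl⟩
  have hS : ∀ {x n l}, x ∈ Tf (st n).S l → x ∉ C l := fun h h' => h' _ h
  have key1 : ¬ Red A (C Set.univ) := by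
    rintro ⟨W, hW, hW'⟩
    obtain ⟨h1, h2⟩ := gds_iff.1 (hW' _ (hG _))
    obtain ⟨e, he⟩ := exists_index hW
    obtain ⟨n, hn⟩ := (hD 0 e).1
    rcases hn with ⟨l, hl, x, y, h3, h4⟩ | h3
    · rw [← index_encode he] at h3
      exact h4 (h1 x y ⟨l, fun q hq => ⟨hCn _ _ _ (hl q hq).2.1 (hl q hq).2.2, (hl q hq).1⟩, h3⟩)
    · obtain ⟨φ, hφ1, hφ2, hφ3⟩ := exists_partrec (A := A)
        (re_section hW (p_Tf (st n).S Set.univ)) (by
        rintro x y ⟨l, hl, hxy⟩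
        exact h3 l hl x y ((index_encode he _).1 hxy))
      apply hA'
      refine ⟨φ, hφ1, hφ2, ?_⟩
      rw [dens_iff_sm]
      refine h2.mono 0 fun x _ hx hx' => ?_
      obtain ⟨y, l, hl, hxy⟩ := hx'
      exact hx (hφ3 x ⟨y, l, fun q hq => ⟨(hl q hq).2, (hl q hq).1 _⟩, hxy⟩)
  have key2 : ∀ i, ¬ Red (C {i}) (C {i}ᶜ) := by
    rintro i ⟨W, hW, hW'⟩
    obtain ⟨h1, h2⟩ := gds_iff.1 (hW' _ (hG _))
    obtain ⟨e, he⟩ := exists_index hW
    obtain ⟨n, hn⟩ := (hD i e).2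
    rcases hn with ⟨l, hl, x, y, h3, h4, h5⟩ | h3
    · rw [← index_encode he] at h3
      apply h5
      rcases h1 x y ⟨l, fun q hq => ⟨hCn _ _ _ (hl q hq).2.1 (hl q hq).2.2, (hl q hq).1⟩, h3⟩
        with ⟨h6, h7⟩ | ⟨h6, h7⟩
      · exact Or.inl ⟨fun h8 => h6 n ⟨i, rfl, h8⟩, h7⟩
      · refine Or.inr ⟨?_, h7⟩
        by_contra h8
        apply h6
        refine hCn _ n x h4 ?_
        rintro ⟨j, rfl, h9⟩
        exact h8 h9
    · have hU : REPred fun p : ℕ × ℕ => (st n).n ≤ p.1 ∧ ∃ l : List (ℕ × ℕ),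
          (∀ q ∈ l, q.2 = 1 ∧ q.1 ∉ Tf (st n).S {i}ᶜ) ∧ W (l, p) :=
        re_and (re_section hW (p_Tf (st n).S {i}ᶜ)) (p_le (p_const _) (p_fst p_id))
      obtain ⟨φ, hφ1, hφ2, hφ3⟩ := exists_partrec (A := B) hU (by
        rintro x y ⟨hx, l, hl, hxy⟩
        exact Or.inl (h3 l hl x y ((index_encode he _).1 hxy) hx))
      apply hB
      refine ⟨φ, hφ1, hφ2, ?_⟩
      rw [dens_iff_sm]
      refine h2.mono (st n).n fun x hx0 hx hx' => ?_
      obtain ⟨y, l, hl, hxy⟩ := hx'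
      exact hx (hφ3 x ⟨y, hx0, l, fun q hq => ⟨(hl q hq).2, (hl q hq).1 _⟩, hxy⟩)
  refine ⟨C, hdC, fun I => ⟨red_post hBA hd (hBC I), fun h => key1 ?_⟩, fun I J => ⟨?_, ?_⟩,
    ?_, ?_⟩
  · exact red_pre h (hdC _) (hmono _ _ (Set.subset_univ I))
  · intro h i hi
    by_contra hj
    apply key2 i
    refine red_pre (C' := C J) ?_ (hdC _) (hmono _ _ ?_)
    · exact red_post h (hdC _) (hmono _ _ (by simpa using hi))
    · intro j hjJ hji
      rw [Set.mem_singleton_iff] at hji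
      exact hj (hji ▸ hjJ)
  · intro h
    exact red_pre (red_refl (C I)) (hdC J) (hmono _ _ h)
  · intro I J X h1 h2
    have h3 : C (I ∪ J) = C I ∩ C J := by
      ext x
      constructor
      · intro h
        exact ⟨hmono _ _ Set.subset_union_left h, hmono _ _ Set.subset_union_right h⟩
      · rintro ⟨h4, h5⟩ n ⟨j, hj, h6⟩
        rcases hj with hj | hj
        · exact h4 n ⟨j, hj, h6⟩
        · exact h5 n ⟨j, hj, h6⟩
    rw [h3]
    exact red_inter h1 h2 (hdC _) (hdC _)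
  · have h3 : C ∅ = Set.univ := Set.eq_univ_of_forall fun x n ⟨j, hj, _⟩ => hj
    rw [h3]
    exact red_univ ∅

end Pool.Agent.Helper96.GD
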