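import Pool.Agent.Helper96.GD.Comp

/-!
# There is no minimal generic degree
-/

open Filter

namespace Pool.Agent.Helper96.GD

open Pool.Agent.Helper92.Gen

/-- Generic descriptions, as in the frozen statement. -/
def GDs (A : Set ℕ) (G : Set (ℕ × ℕ)) : Prop :=
  (∀ x y : ℕ, (x, y) ∈ G → ((x ∈ A ∧ y = 1) ∨ (x ∉ A ∧ y = 0))) ∧
    Tendsto (fun n : ℕ => ((({x : ℕ | ∃ y : ℕ, (x, y) ∈ G} ∩ Set.Iio n).ncard : ℝ) / (n : ℝ)))
      atTop (nhds 1)

/-- Generic reducibility, as in the frozen statement. -/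
def Red (A B : Set ℕ) : Prop :=
  ∃ W : List (ℕ × ℕ) × (ℕ × ℕ) → Prop, REPred W ∧
    ∀ G : Set (ℕ × ℕ), GDs B G →
      GDs A {p : ℕ × ℕ | ∃ l : List (ℕ × ℕ), (∀ q ∈ l, q ∈ G) ∧ W (l, p)}

theorem gds_iff {A : Set ℕ} {G : Set (ℕ × ℕ)} : GDs A G ↔
    (∀ x y : ℕ, (x, y) ∈ G → ((x ∈ A ∧ y = 1) ∨ (x ∉ A ∧ y = 0))) ∧
      Sm {x : ℕ | ¬ ∃ y : ℕ, (x, y) ∈ G} := by
  unfold GDs
  rw [dens_iff_sm]
  exact Iff.rfl

/-- Finite conditions: a finite set of points outside `B`, and a bound. -/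
structure Cond (B : Set ℕ) where
  S : Finset ℕ
  n : ℕ
  out : ∀ x ∈ S, x ∉ B
  bd : ∀ x ∈ S, x < n

/-- Extension of conditions. -/
structure Ext {B : Set ℕ} (c c' : Cond B) : Prop where
  le : c.n ≤ c'.n
  sub : ∀ x ∈ c.S, x ∈ c'.S
  res : ∀ x ∈ c'.S, x < c.n → x ∈ c.S

theorem Ext.refl {B : Set ℕ} (c : Cond B) : Ext c c := ⟨le_rfl, fun _ h => h, fun _ h _ => h⟩

theorem Ext.trans {B : Set ℕ} {c c' c'' : Cond B} (h : Ext c c') (h' : Ext c' c'') :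
    Ext c c'' :=
  ⟨h.le.trans h'.le, fun x hx => h'.sub x (h.sub x hx),
    fun x hx hn => h.res x (h'.res x hx (hn.trans_le h.le)) hn⟩

/-- Correct answers about `A`. -/
def Cor (A : Set ℕ) (x y : ℕ) : Prop := (x ∈ A ∧ y = 1) ∨ (x ∉ A ∧ y = 0)

/-- First kind of requirement. -/
def D0 {B : Set ℕ} (e : ℕ) (c : Cond B) : Prop :=
  (∃ x ∈ c.S, ∃ t, En e t x) ∨ ∃ m, ∀ x, m ≤ x → (∃ t, En e t x) → x ∈ B

/-- Second kind of requirement. -/
def D1 (A : Set ℕ) {B : Set ℕ} (e : ℕ) (c : Cond B) : Prop :=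
  (∃ l : List (ℕ × ℕ), (∀ q ∈ l, q.2 = 1 ∧ q.1 < c.n ∧ q.1 ∉ c.S) ∧
    ∃ x y, (∃ t, En e t (Encodable.encode (l, (x, y)))) ∧ ¬ Cor A x y) ∨
  ∀ l : List (ℕ × ℕ), (∀ q ∈ l, q.2 = 1 ∧ q.1 ∉ c.S) →
    ∀ x y, (∃ t, En e t (Encodable.encode (l, (x, y)))) → Cor A x y

theorem step0 {B : Set ℕ} (e : ℕ) (c : Cond B) : ∃ c', Ext c c' ∧ D0 e c' := by
  classical
  by_cases h : ∃ m, ∀ x, m ≤ x → (∃ t, En e t x) → x ∈ B
  · exact ⟨c, Ext.refl c, Or.inr h⟩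
  · push Not at h
    obtain ⟨x, hx1, hx2, hx3⟩ := h c.n
    refine ⟨⟨insert x c.S, x + 1, ?_, ?_⟩, ⟨?_, ?_, ?_⟩, Or.inl ⟨x, by simp, hx2⟩⟩
    · intro z hz
      rcases Finset.mem_insert.1 hz with rfl | hz
      · exact hx3
      · exact c.out z hz
    · intro z hz
      rcases Finset.mem_insert.1 hz with rfl | hz
      · omega
      · have := c.bd z hz
        omega
    · show c.n ≤ x + 1
      omega
    · intro z hz
      exact Finset.mem_insert_of_mem hz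
    · intro z hz hzn
      rcases Finset.mem_insert.1 hz with rfl | hz
      · omega
      · exact hz

theorem step1 (A : Set ℕ) {B : Set ℕ} (e : ℕ) (c : Cond B) : ∃ c', Ext c c' ∧ D1 A e c' := by
  classical
  by_cases h : ∀ l : List (ℕ × ℕ), (∀ q ∈ l, q.2 = 1 ∧ q.1 ∉ c.S) →
      ∀ x y, (∃ t, En e t (Encodable.encode (l, (x, y)))) → Cor A x y
  · exact ⟨c, Ext.refl c, Or.inr h⟩
  · push Not at h
    obtain ⟨l, hl, x, y, h1, h2⟩ := h
    refine ⟨⟨c.S, c.n + (l.map fun q => q.1).sum + 1, c.out, ?_⟩, ⟨?_, ?_, ?_⟩,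
      Or.inl ⟨l, ?_, x, y, h1, h2⟩⟩
    · intro z hz
      have := c.bd z hz
      omega
    · show c.n ≤ c.n + (l.map fun q => q.1).sum + 1
      omega
    · exact fun z hz => hz
    · exact fun z hz _ => hz
    · intro q hq
      refine ⟨(hl q hq).1, ?_, (hl q hq).2⟩
      have h3 : q.1 ≤ (l.map fun q => q.1).sum :=
        List.le_sum_of_mem (List.mem_map.2 ⟨q, hq, rfl⟩)
      show q.1 < c.n + (l.map fun q => q.1).sum + 1
      omega

theorem D0.mono {B : Set ℕ} {e : ℕ} {c c' : Cond B} (h : Ext c c') (h1 : D0 e c) : D0 e c' := by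
  rcases h1 with ⟨x, hx, hx'⟩ | h1
  · exact Or.inl ⟨x, h.sub x hx, hx'⟩
  · exact Or.inr h1

theorem step (A : Set ℕ) {B : Set ℕ} (e : ℕ) (c : Cond B) :
    ∃ c', Ext c c' ∧ D0 e c' ∧ D1 A e c' := by
  obtain ⟨c1, h1, h2⟩ := step0 e c
  obtain ⟨c2, h3, h4⟩ := step1 A e c1
  exact ⟨c2, h1.trans h3, h2.mono h3, h4⟩

/-- A generic filter. -/
theorem exists_filter (A B : Set ℕ) : ∃ st : ℕ → Cond B,
    (∀ n m, n ≤ m → Ext (st n) (st m)) ∧ ∀ e, D0 e (st (e + 1)) ∧ D1 A e (st (e + 1)) := by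
  choose f hf using fun (e : ℕ) (c : Cond B) => step A e c
  let st : ℕ → Cond B := fun n => Nat.rec ⟨∅, 0, by simp, by simp⟩ (fun e c => f e c) n
  refine ⟨st, ?_, ?_⟩
  · intro n m h
    induction m, h using Nat.le_induction with
    | base => exact Ext.refl _
    | succ m _ ih => exact ih.trans (hf m (st m)).1
  · intro e
    exact ⟨(hf e (st e)).2.1, (hf e (st e)).2.2⟩

theorem p_fin (S : Finset ℕ) : PrimrecPred fun q : ℕ × ℕ => q.2 = 1 ∧ q.1 ∉ S :=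
  p_and (p_eq (p_snd p_id) (p_const 1)) (p_not ((p_mem (p_fst p_id) (p_const S.toList)).of_eq
    fun q => by simp))

/-- Above a set of density one which is not generically computable there is a set which is
not generically computable either and does not bound a given set. -/
theorem exists_superset {A B : Set ℕ} (hA : ¬ GC A) (hB : ¬ GC B) (hd : Sm Bᶜ) :
    ∃ C : Set ℕ, B ⊆ C ∧ ¬ Red C ∅ ∧ ¬ Red A C := by
  obtain ⟨st, hst, hD⟩ := exists_filter A B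
  set C : Set ℕ := {x | ∀ n, x ∉ (st n).S} with hC
  have hBC : B ⊆ C := fun x hx n hn => (st n).out x hn hx
  have hCn : ∀ n x, x < (st n).n → x ∉ (st n).S → x ∈ C := by
    intro n x h1 h2 m hm
    rcases le_total n m with h | h
    · exact h2 ((hst n m h).res x hm h1)
    · exact h2 ((hst m n h).sub x hm)
  refine ⟨C, hBC, ?_, ?_⟩
  · rintro ⟨W, hW, hW'⟩
    have h0 : GDs ∅ {p : ℕ × ℕ | p.2 = 0} := by
      rw [gds_iff]
      refine ⟨fun x y h => Or.inr ⟨by simp, h⟩, sm_empty.mono 0 fun x _ hx => ?_⟩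
      exact hx ⟨0, rfl⟩
    obtain ⟨h1, h2⟩ := gds_iff.1 (hW' _ h0)
    have hQ : PrimrecPred fun q : ℕ × ℕ => q.2 = 0 := p_eq (p_snd p_id) (p_const 0)
    have hV := re_section hW hQ
    have hV1 : REPred fun x : ℕ => ∃ l : List (ℕ × ℕ), (∀ q ∈ l, q.2 = 0) ∧ W (l, (x, 1)) :=
      re_comp hV (Computable.pair Computable.id (Computable.const 1))
    obtain ⟨e, he⟩ := exists_En hV1
    rcases (hD e).1 with ⟨x, hx, hx'⟩ | ⟨m, hm⟩
    · rw [← he] at hx'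
      rcases h1 x 1 hx' with ⟨h3, _⟩ | ⟨_, h3⟩
      · exact h3 _ hx
      · exact absurd h3 (by norm_num)
    · have hU : REPred fun p : ℕ × ℕ => (p.2 = 1 ∧ m ≤ p.1) ∧
          ∃ l : List (ℕ × ℕ), (∀ q ∈ l, q.2 = 0) ∧ W (l, (p.1, 1)) :=
        re_and (re_comp hV1 Computable.fst)
          (p_and (p_eq (p_snd p_id) (p_const 1)) (p_le (p_const m) (p_fst p_id)))
      obtain ⟨φ, hφ1, hφ2, hφ3⟩ := exists_partrec (A := B) hU (by
        rintro x y ⟨⟨h3, h4⟩, h5⟩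
        exact Or.inl ⟨hm x h4 ((he x).1 h5), h3⟩)
      apply hB
      refine ⟨φ, hφ1, hφ2, ?_⟩
      rw [dens_iff_sm]
      refine (h2.union hd).mono m fun x hx hx' => ?_
      by_contra hcon
      simp only [Set.mem_union, Set.mem_ofPred_eq, Set.mem_compl_iff, not_or, not_not] at hcon
      obtain ⟨⟨y, hy⟩, hxB⟩ := hcon
      apply hx'
      refine hφ3 x ⟨1, ⟨rfl, hx⟩, ?_⟩
      rcases h1 x y hy with ⟨_, rfl⟩ | ⟨h3, _⟩
      · exact hy
      · exact absurd (hBC hxB) h3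
  · rintro ⟨W, hW, hW'⟩
    have h0 : GDs C {p : ℕ × ℕ | p.1 ∈ C ∧ p.2 = 1} := by
      rw [gds_iff]
      refine ⟨fun x y h => Or.inl h, hd.mono 0 fun x _ hx => ?_⟩
      intro hxB
      exact hx ⟨1, hBC hxB, rfl⟩
    obtain ⟨h1, h2⟩ := gds_iff.1 (hW' _ h0)
    obtain ⟨e, he⟩ := exists_index hW
    rcases (hD e).2 with ⟨l, hl, x, y, h3, h4⟩ | h3
    · rw [← index_encode he] at h3
      exact h4 (h1 x y ⟨l, fun q hq => ⟨hCn _ _ (hl q hq).2.1 (hl q hq).2.2, (hl q hq).1⟩, h3⟩)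
    · obtain ⟨φ, hφ1, hφ2, hφ3⟩ := exists_partrec (A := A)
        (re_section hW (p_fin (st (e + 1)).S)) (by
        rintro x y ⟨l, hl, hxy⟩
        exact h3 l hl x y ((index_encode he _).1 hxy))
      apply hA
      refine ⟨φ, hφ1, hφ2, ?_⟩
      rw [dens_iff_sm]
      refine h2.mono 0 fun x _ hx hx' => ?_
      obtain ⟨y, l, hl, hxy⟩ := hx'
      exact hx (hφ3 x ⟨y, l, fun q hq => ⟨(hl q hq).2, (hl q hq).1 _⟩, hxy⟩)

/-- A generically computable set lies in the least degree. -/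
theorem red_of_gc {A : Set ℕ} (hA : GC A) : Red A ∅ := by
  obtain ⟨φ, h1, h2, h3⟩ := hA
  refine ⟨fun x => (true ∈ φ x.2.1 ∧ x.2.2 = 1) ∨ (false ∈ φ x.2.1 ∧ x.2.2 = 0),
    re_comp (re_graph h1) Computable.snd, fun G _ => ?_⟩
  rw [gds_iff]
  rw [dens_iff_sm] at h3
  constructor
  · rintro x y ⟨l, _, h | h⟩
    · exact Or.inl ⟨(h2 _ _ h.1).1 rfl, h.2⟩
    · exact Or.inr ⟨fun h4 => absurd ((h2 _ _ h.1).2 h4) (by simp), h.2⟩
  · refine h3.mono 0 fun x _ hx hx' => hx ?_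
    have h4 := Part.get_mem (show (φ x).Dom from hx')
    cases h5 : (φ x).get hx' with
    | true => exact ⟨1, [], by simp, Or.inl ⟨h5 ▸ h4, rfl⟩⟩
    | false => exact ⟨0, [], by simp, Or.inr ⟨h5 ▸ h4, rfl⟩⟩

/-- Below every nonzero generic degree there is a strictly smaller nonzero one, of density one. -/
theorem no_minimal {A : Set ℕ} (hA : ¬ Red A ∅) :
    ∃ C : Set ℕ, Sm Cᶜ ∧ Red C A ∧ ¬ Red C ∅ ∧ ¬ Red A C := by
  have hA' : ¬ GC A := fun h => hA (red_of_gc h)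
  obtain ⟨B, ⟨W, hW, hW'⟩, hB, hd⟩ := main A hA'
  rw [dens_iff_sm] at hd
  obtain ⟨C, hBC, hC1, hC2⟩ := exists_superset hA' hB hd
  refine ⟨C, hd.mono 0 fun x _ hx hx' => hx (hBC hx'), ?_, hC1, hC2⟩
  have hf : Primrec fun x : List (ℕ × ℕ) × (ℕ × ℕ) =>
      (Nat.pair x.2.1 x.2.2, x.1.map fun q => Nat.pair q.1 q.2) :=
    (p_pair (p_fst (p_snd p_id)) (p_snd (p_snd p_id))).pair
      (Primrec.list_map Primrec.fst (p_pair (p_fst Primrec.snd) (p_snd Primrec.snd)).to₂)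
  refine ⟨fun x => x.2.2 = 1 ∧ W (Nat.pair x.2.1 x.2.2, x.1.map fun q => Nat.pair q.1 q.2),
    re_and (re_comp hW hf.to_comp) (p_eq (p_snd (p_snd p_id)) (p_const 1)), fun G hG => ?_⟩
  obtain ⟨hG1, hG2⟩ := gds_iff.1 hG
  obtain ⟨k1, k2⟩ := hW' {z | ∃ x y, z = Nat.pair x y ∧ (x, y) ∈ G} (by
    refine ⟨?_, ?_⟩
    · rintro z ⟨x, y, rfl, hxy⟩
      exact ⟨x, y, rfl, (hG1 x y hxy).imp And.symm And.symm⟩
    · rw [dens_iff_sm]
      refine hG2.mono 0 fun x _ hx hx' => hx ?_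
      obtain ⟨y, hy⟩ := hx'
      exact ⟨y, x, y, rfl, hy⟩)
  rw [dens_iff_sm] at k2
  rw [gds_iff]
  constructor
  · rintro x y ⟨l, hl, h1, h2⟩
    obtain ⟨n, j, h3, h4⟩ := k1 (Nat.pair x y) ⟨_, by
      intro z hz
      obtain ⟨q, hq, rfl⟩ := List.mem_map.1 hz
      exact ⟨q.1, q.2, rfl, hl q hq⟩, h2⟩
    rw [Nat.pair_eq_pair] at h3
    obtain ⟨rfl, rfl⟩ := h3
    simp only at h1
    subst h1
    rcases h4 with ⟨_, h4⟩ | ⟨h4, _⟩
    · exact Or.inl ⟨hBC h4, rfl⟩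
    · exact absurd h4 (by norm_num)
  · refine (Sm.union k2 hd).mono 0 fun x _ hx => ?_
    by_contra hcon
    simp only [Set.mem_union, Set.mem_ofPred_eq, Set.mem_compl_iff, not_or, not_not] at hcon
    obtain ⟨⟨j, l, hl, hj⟩, hxB⟩ := hcon
    apply hx
    obtain ⟨n, j', h3, h4⟩ := k1 (Nat.pair x j) ⟨l, hl, hj⟩
    rw [Nat.pair_eq_pair] at h3
    obtain ⟨rfl, rfl⟩ := h3
    have hj1 : j = 1 := by
      rcases h4 with ⟨h4, _⟩ | ⟨_, h4⟩
      · exact h4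
      · exact absurd hxB h4
    subst hj1
    refine ⟨1, l.map Nat.unpair, ?_, rfl, ?_⟩
    · intro q hq
      obtain ⟨z, hz, rfl⟩ := List.mem_map.1 hq
      obtain ⟨a, b, h5, h6⟩ := hl z hz
      rw [h5, Nat.unpair_pair]
      exact h6
    · have : (l.map Nat.unpair).map (fun q => Nat.pair q.1 q.2) = l := by
        rw [List.map_map]
        conv_rhs => rw [← List.map_id l]
        refine List.map_congr_left fun z _ => ?_
        simp
      show W (Nat.pair x 1, (l.map Nat.unpair).map fun q => Nat.pair q.1 q.2)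
      rw [this]
      exact hj

end Pool.Agent.Helper96.GD
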